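import Pool.Agent.Lib_MP_f55cd4.Core

open Finset

namespace MPf55cd4

/-- the quotient -/
noncomputable def rr (x : ℕ) : ℚ := (sg x : ℚ) / (ph x : ℚ)

theorem rr_step (x : ℕ) (hx : 1 ≤ x) : rr (x + 1) ≤ rr x * (((x : ℚ) + 2) / x) := by
  unfold rr
  rw [sg_succ, ph_succ]
  have h0 : (0 : ℚ) < ph x := by exact_mod_cast ph_pos x
  have hx0 : (0 : ℚ) < x := by exact_mod_cast hx
  have hs : (0 : ℚ) ≤ sg x := by positivity
  split_ifs with hp
  · push_cast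
    rw [mul_div_mul_comm]
  · have : (1 : ℚ) ≤ ((x : ℚ) + 2) / x := by
      rw [le_div_iff₀ hx0]; linarith
    exact le_mul_of_one_le_right (by positivity) this

theorem rr_eq (x : ℕ) (hx : ¬ (x + 1).Prime) : rr (x + 1) = rr x := by
  unfold rr; rw [(step_eq hx).1, (step_eq hx).2]

theorem rr_mono_step (x : ℕ) (hx : 1 ≤ x) : rr x ≤ rr (x + 1) := by
  unfold rr
  rw [sg_succ, ph_succ]
  have h0 : (0 : ℚ) < ph x := by exact_mod_cast ph_pos x
  have hx0 : (0 : ℚ) < x := by exact_mod_cast hx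
  have hs : (0 : ℚ) ≤ sg x := by positivity
  split_ifs with hp
  · push_cast
    rw [mul_div_mul_comm]
    have : (1 : ℚ) ≤ ((x : ℚ) + 2) / x := by
      rw [le_div_iff₀ hx0]; linarith
    exact le_mul_of_one_le_right (by positivity) this
  · exact le_refl _

theorem rr_mono {x y : ℕ} (hx : 1 ≤ x) (hxy : x ≤ y) : rr x ≤ rr y := by
  induction y, hxy using Nat.le_induction with
  | base => exact le_refl _
  | succ y hy ih => exact ih.trans (rr_mono_step y (by omega))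

theorem rr_nonneg (x : ℕ) : 0 ≤ rr x := by unfold rr; positivity

theorem rr_six (J : ℕ) (hJ : 1 ≤ J) : rr (6 * J + 7) ≤ rr (6 * J + 1) * ((3 * (J : ℚ) + 4) / (3 * J + 2)) := by
  have e1 : rr (6 * J + 2) = rr (6 * J + 1) :=
    rr_eq (6 * J + 1) (not_prime_of_even (by omega) (by omega))
  have e2 : rr (6 * J + 3) = rr (6 * J + 2) :=
    rr_eq (6 * J + 2) (not_prime_of_three (by omega) (by omega))
  have e3 : rr (6 * J + 4) = rr (6 * J + 3) :=
    rr_eq (6 * J + 3) (not_prime_of_even (by omega) (by omega))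
  have e4 : rr (6 * J + 5) ≤ rr (6 * J + 4) * ((((6 * J + 4 : ℕ) : ℚ) + 2) / ((6 * J + 4 : ℕ) : ℚ)) :=
    rr_step (6 * J + 4) (by omega)
  have e5 : rr (6 * J + 6) = rr (6 * J + 5) :=
    rr_eq (6 * J + 5) (not_prime_of_even (by omega) (by omega))
  have e6 : rr (6 * J + 7) ≤ rr (6 * J + 6) * ((((6 * J + 6 : ℕ) : ℚ) + 2) / ((6 * J + 6 : ℕ) : ℚ)) :=
    rr_step (6 * J + 6) (by omega)
  rw [e5] at e6
  rw [e3, e2, e1] at e4
  have hJ0 : (0 : ℚ) ≤ J := by positivity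
  calc rr (6 * J + 7) ≤ rr (6 * J + 5) * ((((6 * J + 6 : ℕ) : ℚ) + 2) / ((6 * J + 6 : ℕ) : ℚ)) := e6
    _ ≤ (rr (6 * J + 1) * ((((6 * J + 4 : ℕ) : ℚ) + 2) / ((6 * J + 4 : ℕ) : ℚ))) *
        ((((6 * J + 6 : ℕ) : ℚ) + 2) / ((6 * J + 6 : ℕ) : ℚ)) :=
        mul_le_mul_of_nonneg_right e4 (by positivity)
    _ = rr (6 * J + 1) * ((3 * (J : ℚ) + 4) / (3 * J + 2)) := by
        push_cast
        have h1 : (6 * (J : ℚ) + 4) ≠ 0 := by positivity
        have h2 : (6 * (J : ℚ) + 6) ≠ 0 := by positivity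
        have h3 : (3 * (J : ℚ) + 2) ≠ 0 := by positivity
        field_simp
        ring

theorem rr_seven : rr 7 = 12 := by
  have hs : sg 7 = 576 := by decide
  have hp : ph 7 = 48 := by decide
  unfold rr; rw [hs, hp]; norm_num

theorem rr_cube (J : ℕ) (hJ : 1 ≤ J) : rr (6 * J + 1) ^ 3 ≤ 1728 * (J : ℚ) ^ 2 := by
  induction J, hJ using Nat.le_induction with
  | base => rw [show 6 * 1 + 1 = 7 from rfl, rr_seven]; norm_num
  | succ J hJ ih =>
    have h := rr_six J hJ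
    have hJ0 : (1 : ℚ) ≤ J := by exact_mod_cast hJ
    have h0 := rr_nonneg (6 * J + 7)
    rw [show 6 * (J + 1) + 1 = 6 * J + 7 by ring]
    calc rr (6 * J + 7) ^ 3 ≤ (rr (6 * J + 1) * ((3 * (J : ℚ) + 4) / (3 * J + 2))) ^ 3 :=
          pow_le_pow_left₀ h0 h 3
      _ = rr (6 * J + 1) ^ 3 * ((3 * (J : ℚ) + 4) / (3 * J + 2)) ^ 3 := by ring
      _ ≤ 1728 * (J : ℚ) ^ 2 * ((3 * (J : ℚ) + 4) / (3 * J + 2)) ^ 3 :=
          mul_le_mul_of_nonneg_right ih (by positivity)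
      _ ≤ 1728 * ((J + 1 : ℕ) : ℚ) ^ 2 := by
          rw [div_pow, mul_div_assoc', div_le_iff₀ (by positivity)]
          push_cast
          nlinarith [pow_pos (by linarith : (0 : ℚ) < J) 3, pow_pos (by linarith : (0 : ℚ) < J) 2]

/-- `P_m` is much smaller than `p_m / 4`. -/
theorem rr_small (x : ℕ) (hx : 6000 ≤ x) : 4 * rr x < (x : ℚ) - 1 := by
  obtain ⟨J, hJ1, hJ2⟩ : ∃ J, 6 * J + 1 ≤ x ∧ x < 6 * J + 7 := ⟨(x - 1) / 6, by omega, by omega⟩
  have h1 : rr x ≤ rr (6 * (J + 1) + 1) := rr_mono (by omega) (by omega)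
  have h2 := rr_cube (J + 1) (by omega)
  have hJ3 : 999 ≤ J := by omega
  have hJ : (999 : ℚ) ≤ J := by exact_mod_cast hJ3
  have hx1 : 6 * (J : ℚ) ≤ (x : ℚ) - 1 := by
    have : ((6 * J + 1 : ℕ) : ℚ) ≤ x := by exact_mod_cast hJ1
    push_cast at this; linarith
  have h3 : rr (6 * (J + 1) + 1) ^ 3 < (6 / 4 * (J : ℚ)) ^ 3 := by
    refine lt_of_le_of_lt h2 ?_
    push_cast
    nlinarith [mul_nonneg (by linarith : (0 : ℚ) ≤ J) (by linarith : (0 : ℚ) ≤ J - 999),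
      mul_nonneg (mul_nonneg (by linarith : (0 : ℚ) ≤ J) (by linarith : (0 : ℚ) ≤ J))
        (by linarith : (0 : ℚ) ≤ J - 999)]
  have h4 : rr (6 * (J + 1) + 1) < 6 / 4 * (J : ℚ) := lt_of_pow_lt_pow_left₀ 3 (by positivity) h3
  linarith

/-- Case two, final form. -/
theorem caseB' {q x : ℕ} (hq : q.Prime) (h2 : (2 * q - 1).Prime) (hx : 6000 ≤ x)
    (hx1 : 2 * q - 1 ≤ x) (hx2 : x < 4 * q + 1) : ¬ ph x ∣ sg x := by
  intro h
  have h3 : 3 < q := by omega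
  have h4 := caseB hq h3 h2 hx1 hx2 h
  have h5 := rr_small x hx
  have h0 : (0 : ℚ) < ph x := by exact_mod_cast ph_pos x
  have h6 : (q : ℚ) ≤ rr x := by
    unfold rr
    rw [le_div_iff₀ h0]
    exact_mod_cast h4
  have h7 : (x : ℚ) < 4 * q + 1 := by exact_mod_cast hx2
  linarith

end MPf55cd4
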