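import Pool.Agent.Lib_MP_f55cd4.Proth

namespace MPf55cd4

set_option maxRecDepth 100000

/-! Chains of pairs of primes `q = h * 2 ^ k + 1`, `2 * q - 1` (Proth certificates). -/

theorem rF0 : chk (54659985 * 2 ^ 3285 + 5)
    [(52562178, 3284, 7, 5), (51830094, 3285, 13, 5), (47732610, 3286, 7, 17), (46555302, 3287, 5, 5),
    (45945963, 3288, 19, 5), (62114271, 3288, 5, 5), (60898434, 3289, 7, 5), (54713709, 3290, 5, 5),
    (54096357, 3291, 5, 5), (53906280, 3292, 7, 7), (53398170, 3293, 17, 11), (51351237, 3294, 19, 5),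
    (49593405, 3295, 7, 7), (48530910, 3296, 7, 19), (47599788, 3297, 5, 5), (46450992, 3298, 13, 5),
    (46075176, 3299, 17, 5)]
    (46075176 * 2 ^ 3301 + 5) = true := by decide +kernel

theorem rangeF (x : ℕ) (h1 : (54659985 * 2 ^ 3285 + 5) ≤ x) (h2 : x < (46075176 * 2 ^ 3301 + 5)) :
    ∃ q, q.Prime ∧ (2 * q - 1).Prime ∧ 2 * q - 1 ≤ x ∧ x < 4 * q + 1 := by
  exact chk_cover _ _ _ rF0 x h1 h2

end MPf55cd4
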