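import Pool.Agent.Lib_MP_f55cd4.Pairs
import Pool.Agent.Lib_MP_f55cd4.RangeA
import Pool.Agent.Lib_MP_f55cd4.RangeB
import Pool.Agent.Lib_MP_f55cd4.RangeC
import Pool.Agent.Lib_MP_f55cd4.RangeD
import Pool.Agent.Lib_MP_f55cd4.RangeE
import Pool.Agent.Lib_MP_f55cd4.RangeF

namespace MPf55cd4

theorem big_end : 10 ^ 1000 < 46075176 * 2 ^ 3301 + 5 := by
  decide +kernel

theorem allpair (x : ℕ) (h1 : 47 ≤ x) (h2 : x < 46075176 * 2 ^ 3301 + 5) : ∃ q, Pair q x := by
  have key : (∃ q : ℕ, q.Prime ∧ (2 * q - 1).Prime ∧ 2 * q - 1 ≤ x ∧ x < 4 * q + 1) →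
      ∃ q, Pair q x := by
    rintro ⟨q, a, b, c, d⟩
    exact ⟨q, a, Or.inr ⟨b, c, d⟩⟩
  by_cases c0 : x < 3880243
  · exact smallpair x h1 c0
  by_cases c1 : x < (39403455 * 2 ^ 2142 + 5)
  · exact key (rangeA x (not_lt.mp c0) c1)
  by_cases c2 : x < (41652081 * 2 ^ 2577 + 5)
  · exact key (rangeB x (not_lt.mp c1) c2)
  by_cases c3 : x < (39741039 * 2 ^ 2871 + 5)
  · exact key (rangeC x (not_lt.mp c2) c3)
  by_cases c4 : x < (43813086 * 2 ^ 3098 + 5)
  · exact key (rangeD x (not_lt.mp c3) c4)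
  by_cases c5 : x < (54659985 * 2 ^ 3285 + 5)
  · exact key (rangeE x (not_lt.mp c4) c5)
  exact key (rangeF x (not_lt.mp c5) h2)

theorem allpair' (x : ℕ) (h1 : 47 ≤ x) (h2 : x ≤ 10 ^ 1000) : ∃ q, Pair q x :=
  allpair x h1 (lt_of_le_of_lt h2 big_end)

theorem small_not (x : ℕ) (h1 : 1 ≤ x) (h2 : x < 23) (hp : x.Prime) (h : ph x ∣ sg x) :
    x = 2 ∨ x = 3 ∨ x = 5 ∨ x = 7 ∨ x = 19 := by
  revert hp h
  interval_cases x <;> decide +kernel

theorem index_of {m x : ℕ} (hm : 1 ≤ m) (hx : prm m = x) : m = Nat.count Nat.Prime x + 1 := by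
  have h : Nat.count Nat.Prime (Nat.nth Nat.Prime (m - 1)) = m - 1 :=
    Nat.count_nth_of_infinite Nat.infinite_setOf_prime (m - 1)
  unfold prm at hx
  rw [hx] at h
  omega

theorem int_small (m : ℕ) (hm : 1 ≤ m) (h : ∃ z : ℤ, P m = z) (hx : prm m < 6000) :
    m = 1 ∨ m = 2 ∨ m = 3 ∨ m = 4 ∨ m = 8 := by
  have hd := dvd_of_int hm h
  have hp := prm_prime hm
  have h2 := hp.two_le
  by_cases c : 23 ≤ prm m
  · exact absurd hd (small_range _ c (by omega))
  · rcases small_not (prm m) (by omega) (by omega) hp hd with e | e | e | e | e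
    · have := index_of hm e
      have h3 : Nat.count Nat.Prime 2 = 0 := by decide +kernel
      omega
    · have := index_of hm e
      have h3 : Nat.count Nat.Prime 3 = 1 := by decide +kernel
      omega
    · have := index_of hm e
      have h3 : Nat.count Nat.Prime 5 = 2 := by decide +kernel
      omega
    · have := index_of hm e
      have h3 : Nat.count Nat.Prime 7 = 3 := by decide +kernel
      omega
    · have := index_of hm e
      have h3 : Nat.count Nat.Prime 19 = 7 := by decide +kernel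
      omega

end MPf55cd4
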