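import Pool.Agent.Lib_MP_f55cd4.Defs

open Finset

namespace MPf55cd4

/-- product of `p + 1` over primes `p ≤ x` -/
def sg (x : ℕ) : ℕ := ∏ p ∈ (range (x + 1)).filter Nat.Prime, (p + 1)
/-- product of `p - 1` over primes `p ≤ x` -/
def ph (x : ℕ) : ℕ := ∏ p ∈ (range (x + 1)).filter Nat.Prime, (p - 1)

theorem ph_pos (x : ℕ) : 0 < ph x := by
  unfold ph
  apply Finset.prod_pos
  intro p hp
  have := (mem_filter.1 hp).2.two_le
  omega

theorem prm_prime {i : ℕ} (hi : 1 ≤ i) : (prm i).Prime := Nat.prime_nth_prime _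

theorem filter_prm (m : ℕ) (hm : 1 ≤ m) :
    (range (prm m + 1)).filter Nat.Prime = (Icc 1 m).image prm := by
  ext p
  simp only [mem_filter, mem_range, mem_image, mem_Icc]
  constructor
  · rintro ⟨h1, h2⟩
    refine ⟨Nat.count Nat.Prime p + 1, ⟨by omega, ?_⟩, ?_⟩
    · have h3 : Nat.nth Nat.Prime (Nat.count Nat.Prime p) = p := Nat.nth_count h2
      have h4 : Nat.nth Nat.Prime (Nat.count Nat.Prime p) ≤ Nat.nth Nat.Prime (m - 1) := by
        rw [h3]; unfold prm at h1; omega
      have h5 := (Nat.nth_le_nth Nat.infinite_setOf_prime).1 h4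
      omega
    · unfold prm
      simp [Nat.nth_count h2]
  · rintro ⟨i, ⟨h1, h2⟩, rfl⟩
    refine ⟨?_, prm_prime h1⟩
    have : prm i ≤ prm m := by
      unfold prm
      exact (Nat.nth_le_nth Nat.infinite_setOf_prime).2 (by omega)
    omega

theorem prm_inj (m : ℕ) : Set.InjOn prm (Icc 1 m : Set ℕ) := by
  intro a ha b hb hab
  simp only [coe_Icc, Set.mem_Icc] at ha hb
  unfold prm at hab
  have := Nat.nth_injective Nat.infinite_setOf_prime hab
  omega

theorem P_eq (m : ℕ) (hm : 1 ≤ m) : P m = (sg (prm m) : ℚ) / (ph (prm m) : ℚ) := by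
  have h : P m = ∏ p ∈ (range (prm m + 1)).filter Nat.Prime, (((p : ℚ) + 1) / ((p : ℚ) - 1)) := by
    rw [filter_prm m hm, Finset.prod_image (by simpa using prm_inj m)]
    rfl
  rw [h, Finset.prod_div_distrib, sg, ph]
  push_cast
  congr 1
  apply Finset.prod_congr rfl
  intro p hp
  have := (mem_filter.1 hp).2.one_lt
  rw [Nat.cast_sub (by omega)]
  simp

theorem dvd_of_int {m : ℕ} (hm : 1 ≤ m) (h : ∃ z : ℤ, P m = z) : ph (prm m) ∣ sg (prm m) := by
  obtain ⟨z, hz⟩ := h
  rw [P_eq m hm] at hz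
  have h0 : (ph (prm m) : ℚ) ≠ 0 := by exact_mod_cast (ph_pos _).ne'
  rw [div_eq_iff h0] at hz
  have h1 : (sg (prm m) : ℤ) = z * (ph (prm m) : ℤ) := by exact_mod_cast hz
  have h2 : (ph (prm m) : ℤ) ∣ (sg (prm m) : ℤ) := ⟨z, by rw [h1, mul_comm]⟩
  exact_mod_cast h2

theorem prime_mod_three {q : ℕ} (hq : q.Prime) (h3 : 3 < q) : q % 3 = 1 ∨ q % 3 = 2 := by
  have : ¬ 3 ∣ q := by
    intro h
    have := (Nat.prime_dvd_prime_iff_eq Nat.prime_three hq).1 h
    omega
  omega

theorem not_prime_of_three {n : ℕ} (h : n % 3 = 0) (h3 : 3 < n) : ¬ n.Prime := by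
  intro hn
  rcases prime_mod_three hn h3 with h1 | h1 <;> omega

theorem not_prime_of_even {n : ℕ} (h : n % 2 = 0) (h3 : 2 < n) : ¬ n.Prime := by
  intro hn
  rcases hn.eq_two_or_odd with h1 | h1 <;> omega

/-- Case one: `q` and `2q+1` prime, `2q+1 ≤ x < 4q-1`. -/
theorem caseA {q x : ℕ} (hq : q.Prime) (h3 : 3 < q) (h2 : (2 * q + 1).Prime)
    (hx1 : 2 * q + 1 ≤ x) (hx2 : x + 1 < 4 * q) : ¬ ph x ∣ sg x := by
  intro h
  have hqodd : q % 2 = 1 := hq.eq_two_or_odd.resolve_left (by omega)
  have hq3 : q % 3 = 2 := by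
    rcases prime_mod_three hq h3 with h1 | h1
    · exfalso; exact not_prime_of_three (n := 2 * q + 1) (by omega) (by omega) h2
    · exact h1
  have hd : q ∣ ph x := by
    have : (2 * q + 1 - 1) ∣ ph x := by
      unfold ph
      apply Finset.dvd_prod_of_mem (fun p => p - 1) (a := 2 * q + 1)
      simp [mem_filter, h2]; omega
    exact dvd_trans ⟨2, by omega⟩ this
  have hnd : ¬ q ∣ sg x := by
    unfold sg
    rw [Prime.dvd_finset_prod_iff hq.prime]
    rintro ⟨p, hp, hqp⟩
    simp only [mem_filter, mem_range] at hp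
    obtain ⟨c, hc⟩ := hqp
    have hp2 := hp.2.two_le
    have hc4 : c < 4 := by
      by_contra hcon
      push Not at hcon
      have : q * 4 ≤ q * c := Nat.mul_le_mul_left q hcon
      omega
    have hpe : p = q * c - 1 := by omega
    interval_cases c
    · omega
    · exact not_prime_of_even (n := p) (by omega) (by omega) hp.2
    · exact not_prime_of_three (n := p) (by omega) (by omega) hp.2
    · exact not_prime_of_even (n := p) (by omega) (by omega) hp.2
  exact hnd (dvd_trans hd h)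

/-- Case two: `q` and `2q-1` prime, `2q-1 ≤ x < 4q+1`: then `q` divides the quotient. -/
theorem caseB {q x : ℕ} (hq : q.Prime) (h3 : 3 < q) (h2 : (2 * q - 1).Prime)
    (hx1 : 2 * q - 1 ≤ x) (hx2 : x < 4 * q + 1) (hdvd : ph x ∣ sg x) : q * ph x ≤ sg x := by
  have hqodd : q % 2 = 1 := hq.eq_two_or_odd.resolve_left (by omega)
  have hq3 : q % 3 = 1 := by
    rcases prime_mod_three hq h3 with h1 | h1
    · exact h1
    · exfalso; exact not_prime_of_three (n := 2 * q - 1) (by omega) (by omega) h2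
  have hd : q ∣ sg x := by
    have : (2 * q - 1 + 1) ∣ sg x := by
      unfold sg
      apply Finset.dvd_prod_of_mem (fun p => p + 1) (a := 2 * q - 1)
      simp [mem_filter, h2]; omega
    exact dvd_trans ⟨2, by omega⟩ this
  have hnd : ¬ q ∣ ph x := by
    unfold ph
    rw [Prime.dvd_finset_prod_iff hq.prime]
    rintro ⟨p, hp, hqp⟩
    simp only [mem_filter, mem_range] at hp
    obtain ⟨c, hc⟩ := hqp
    have hp2 := hp.2.two_le
    have hc4 : c < 4 := by
      by_contra hcon
      push Not at hcon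
      have : q * 4 ≤ q * c := Nat.mul_le_mul_left q hcon
      omega
    have hpe : p = q * c + 1 := by omega
    interval_cases c
    · omega
    · exact not_prime_of_even (n := p) (by omega) (by omega) hp.2
    · exact not_prime_of_three (n := p) (by omega) (by omega) hp.2
    · exact not_prime_of_even (n := p) (by omega) (by omega) hp.2
  obtain ⟨n, hn⟩ := hdvd
  rw [hn] at hd
  have hqn : q ∣ n := ((Nat.Prime.dvd_mul hq).1 hd).resolve_left hnd
  have hn0 : 0 < n := by
    rcases Nat.eq_zero_or_pos n with h0 | h0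
    · exfalso
      rw [h0, mul_zero] at hn
      have : 0 < sg x := by
        unfold sg
        exact Finset.prod_pos (fun p _ => by omega)
      omega
    · exact h0
  have := Nat.le_of_dvd hn0 hqn
  rw [hn, mul_comm]
  exact Nat.mul_le_mul_left _ this

/-- growth step -/
theorem sg_succ (x : ℕ) : sg (x + 1) = if (x + 1).Prime then sg x * (x + 2) else sg x := by
  unfold sg
  rw [Finset.range_add_one (n := x + 1), Finset.filter_insert]
  split_ifs with h
  · rw [Finset.prod_insert (by simp)]; ring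
  · rfl

theorem ph_succ (x : ℕ) : ph (x + 1) = if (x + 1).Prime then ph x * x else ph x := by
  unfold ph
  rw [Finset.range_add_one (n := x + 1), Finset.filter_insert]
  split_ifs with h
  · rw [Finset.prod_insert (by simp)]; simp [mul_comm]
  · rfl

theorem step_le (x a b : ℕ) (hx : 1 ≤ x) (h : sg x * b ≤ ph x * a) :
    sg (x + 1) * (b * x) ≤ ph (x + 1) * (a * (x + 2)) := by
  rw [sg_succ, ph_succ]
  split_ifs with hp
  · calc sg x * (x + 2) * (b * x) = (sg x * b) * (x * (x + 2)) := by ring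
      _ ≤ (ph x * a) * (x * (x + 2)) := Nat.mul_le_mul_right _ h
      _ = _ := by ring
  · calc sg x * (b * x) = (sg x * b) * x := by ring
      _ ≤ (ph x * a) * (x + 2) := Nat.mul_le_mul h (by omega)
      _ = _ := by ring

theorem step_eq {x : ℕ} (hx : ¬ (x + 1).Prime) : sg (x + 1) = sg x ∧ ph (x + 1) = ph x := by
  rw [sg_succ, ph_succ]; simp [hx]

end MPf55cd4
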