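import Mathlib

namespace MPf55cd4

/-- `prm i` is the `i`-th prime number, counted from `i = 1`: `prm 1 = 2`, `prm 2 = 3`,
`prm 3 = 5`, and so on. -/
noncomputable def prm (i : ℕ) : ℕ := Nat.nth Nat.Prime (i - 1)

/-- `P m = ∏_{n=1}^{m} (p_n + 1) / (p_n - 1)`, a rational number. -/
noncomputable def P (m : ℕ) : ℚ :=
  ∏ i ∈ Finset.Icc 1 m, ((prm i : ℚ) + 1) / ((prm i : ℚ) - 1)

end MPf55cd4
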