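import Pool.Agent.Lib_MP_f55cd4.Core
import Pool.Agent.Lib_MP_f55cd4.MertC

open Finset

namespace MPf55cd4

theorem prm_le {a b : ℕ} (h : a ≤ b) : prm a ≤ prm b := by
  unfold prm
  exact (Nat.nth_le_nth Nat.infinite_setOfPred_prime).2 (by omega)

theorem prm_two_le (i : ℕ) : 2 ≤ prm i := (Nat.prime_nth_prime _).two_le

theorem count_prm (m : ℕ) (hm : 1 ≤ m) : Nat.primeCounting (prm m) = m := by
  unfold Nat.primeCounting Nat.primeCounting' prm
  rw [Nat.count_succ, Nat.count_nth_of_infinite Nat.infinite_setOfPred_prime,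
    if_pos (Nat.prime_nth_prime _)]
  omega

theorem P_real (m : ℕ) (hm : 1 ≤ m) : ((P m : ℚ) : ℝ) =
    ∏ p ∈ (range (prm m + 1)).filter Nat.Prime, (((p : ℝ) + 1) / ((p : ℝ) - 1)) := by
  rw [filter_prm m hm, Finset.prod_image (by simpa using prm_inj m)]
  unfold P
  push_cast
  rfl

theorem sum_tel (N : ℕ) : ∑ n ∈ (range (N + 1)).filter (fun n => 2 ≤ n),
    (1 : ℝ) / (n * (n - 1)) ≤ 1 := by
  have h : ∀ N : ℕ, 1 ≤ N → ∑ n ∈ (range (N + 1)).filter (fun n => 2 ≤ n),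
    (1 : ℝ) / (n * (n - 1)) ≤ 1 - 1 / N := by
    intro N hN
    induction N, hN using Nat.le_induction with
    | base =>
      have : (range (1 + 1)).filter (fun n => 2 ≤ n) = ∅ := by decide
      rw [this]; norm_num
    | succ N hN ih =>
      rw [Finset.range_add_one (n := N + 1), Finset.filter_insert, if_pos (by omega),
        Finset.sum_insert (by simp)]
      have h1 : (1 : ℝ) ≤ N := by exact_mod_cast hN
      have h2 : (1 : ℝ) / (((N + 1 : ℕ) : ℝ) * (((N + 1 : ℕ) : ℝ) - 1)) = 1 / N - 1 / ((N + 1 : ℕ) : ℝ) := by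
        push_cast
        have hN0 : (N : ℝ) ≠ 0 := by linarith
        have hN2 : (N : ℝ) + 1 ≠ 0 := by linarith
        have hN3 : (N : ℝ) + 1 - 1 = N := by ring
        rw [hN3]
        field_simp
        ring
      rw [h2]
      linarith
  rcases Nat.eq_zero_or_pos N with h0 | h0
  · subst h0
    have : (range (0 + 1)).filter (fun n => 2 ≤ n) = ∅ := by decide
    rw [this]; norm_num
  · refine (h N h0).trans ?_
    have : (0 : ℝ) ≤ 1 / N := by positivity
    linarith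

theorem P_log_sq : ∃ C : ℝ, 0 < C ∧ ∀ m, 2 ≤ m → ((P m : ℚ) : ℝ) ≤ C * Real.log (prm m) ^ 2 := by
  obtain ⟨C, hC⟩ := ms_sum
  refine ⟨Real.exp (2 * C + 2), Real.exp_pos _, fun m hm => ?_⟩
  have hT3 : 3 ≤ prm m := by
    have h1 : prm 2 ≤ prm m := prm_le hm
    have h2 : prm 2 = 3 := by unfold prm; exact Nat.nth_prime_one_eq_three
    omega
  have hlog : 1 < Real.log (prm m) := by
    have h3 : (3 : ℝ) ≤ prm m := by exact_mod_cast hT3
    have h4 : Real.exp 1 < prm m := lt_of_lt_of_le Real.exp_one_lt_three h3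
    exact (Real.lt_log_iff_exp_lt (by linarith)).2 h4
  have h1 := (abs_le.1 (hC (prm m) (by exact_mod_cast (by omega : 2 ≤ prm m)))).2
  have hPP : (Finset.Icc 1 ⌊((prm m : ℕ) : ℝ)⌋₊).filter (fun p => p.Prime) =
      (range (prm m + 1)).filter Nat.Prime := by
    ext p
    simp only [mem_filter, mem_Icc, mem_range, Nat.floor_natCast]
    constructor
    · rintro ⟨⟨_, h⟩, h'⟩; exact ⟨by omega, h'⟩
    · rintro ⟨h, h'⟩; exact ⟨⟨h'.one_lt.le, by omega⟩, h'⟩
  rw [hPP] at h1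
  rw [P_real m (by omega)]
  have hterm : ∀ p ∈ (range (prm m + 1)).filter Nat.Prime,
      (((p : ℝ) + 1) / ((p : ℝ) - 1)) ≤ Real.exp (2 * (1 / (p : ℝ)) + 2 * (1 / ((p : ℝ) * (p - 1)))) := by
    intro p hp
    have hp2 : (2 : ℝ) ≤ p := by exact_mod_cast (mem_filter.1 hp).2.two_le
    have e1 : ((p : ℝ) + 1) / ((p : ℝ) - 1) = 2 * (1 / (p : ℝ)) + 2 * (1 / ((p : ℝ) * (p - 1))) + 1 := by
      have : (p : ℝ) - 1 ≠ 0 := by linarith
      field_simp
      ring
    rw [e1]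
    exact Real.add_one_le_exp _
  have hpos : ∀ p ∈ (range (prm m + 1)).filter Nat.Prime, (0 : ℝ) ≤ (((p : ℝ) + 1) / ((p : ℝ) - 1)) := by
    intro p hp
    have hp2 : (2 : ℝ) ≤ p := by exact_mod_cast (mem_filter.1 hp).2.two_le
    exact div_nonneg (by linarith) (by linarith)
  refine (Finset.prod_le_prod hpos hterm).trans ?_
  rw [← Real.exp_sum, Finset.sum_add_distrib, ← Finset.mul_sum, ← Finset.mul_sum]
  have h2 : ∑ p ∈ (range (prm m + 1)).filter Nat.Prime, (1 : ℝ) / ((p : ℝ) * (p - 1)) ≤ 1 := by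
    refine le_trans (Finset.sum_le_sum_of_subset_of_nonneg ?_ ?_) (sum_tel (prm m))
    · intro p hp
      simp only [mem_filter] at hp ⊢
      exact ⟨hp.1, hp.2.two_le⟩
    · intro p hp _
      have hp2 : (2 : ℝ) ≤ p := by exact_mod_cast (mem_filter.1 hp).2
      exact div_nonneg zero_le_one (mul_nonneg (by linarith) (by linarith))
  have h3 : Real.exp (2 * ∑ p ∈ (range (prm m + 1)).filter Nat.Prime, (1 : ℝ) / (p : ℝ) +
      2 * ∑ p ∈ (range (prm m + 1)).filter Nat.Prime, (1 : ℝ) / ((p : ℝ) * (p - 1))) ≤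
      Real.exp ((2 * C + 2) + 2 * Real.log (Real.log (prm m))) := by
    apply Real.exp_le_exp.2
    linarith
  refine h3.trans ?_
  rw [Real.exp_add]
  apply le_of_eq
  congr 1
  rw [mul_comm 2, Real.exp_mul, Real.exp_log (by linarith)]
  norm_num

theorem log_prm : ∃ C : ℝ, 0 < C ∧ ∀ m, 1 ≤ m → Real.log (prm m) ≤ C * Real.log (m + 1) := by
  refine ⟨10, by norm_num, fun m hm => ?_⟩
  have hm1 : (1 : ℝ) ≤ m := by exact_mod_cast hm
  set T := prm m with hT
  have hT2 : (2 : ℝ) ≤ T := by exact_mod_cast prm_two_le m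
  have h1 := Chebyshev.psi_ge T
  have h2 := Chebyshev.psi_le_primeCounting_mul_log T
  rw [hT, count_prm m hm, ← hT] at h2
  have hl2 : 0.69 < Real.log 2 := by have := Real.log_two_gt_d9; linarith
  have hs : 0 < Real.sqrt T := Real.sqrt_pos.2 (by linarith)
  have hss : Real.sqrt T * Real.sqrt T = T := Real.mul_self_sqrt (by linarith)
  have h3 : Real.log T ≤ 2 * Real.sqrt T := by
    have e : Real.log T = 2 * Real.log (Real.sqrt T) := by
      rw [Real.log_sqrt (by linarith)]; ring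
    rw [e]
    have := Real.log_le_sub_one_of_pos hs
    linarith
  have h4 : Real.log ((T : ℝ) + 1) ≤ 2 * Real.sqrt T + 1 := by
    have e : Real.log ((T : ℝ) + 1) ≤ Real.log (2 * T) := Real.log_le_log (by linarith) (by linarith)
    rw [Real.log_mul (by norm_num) (by linarith)] at e
    have := Real.log_two_lt_d9
    linarith
  have hs1 : 1 ≤ Real.sqrt T := by
    rw [Real.one_le_sqrt]; linarith
  have h5 : (T : ℝ) * Real.log 2 ≤ (m : ℝ) * (2 * Real.sqrt T) + 2 * Real.sqrt T + 1 := by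
    have : (m : ℝ) * Real.log T ≤ (m : ℝ) * (2 * Real.sqrt T) :=
      mul_le_mul_of_nonneg_left h3 (by linarith)
    linarith
  have h6 : Real.sqrt T * 0.69 ≤ 2 * m + 3 := by
    have h7 : Real.sqrt T * (Real.sqrt T * 0.69) ≤ Real.sqrt T * (2 * m + 3) := by
      calc Real.sqrt T * (Real.sqrt T * 0.69) = (T : ℝ) * 0.69 := by rw [← mul_assoc, hss]
        _ ≤ (T : ℝ) * Real.log 2 := mul_le_mul_of_nonneg_left hl2.le (by linarith)
        _ ≤ (m : ℝ) * (2 * Real.sqrt T) + 2 * Real.sqrt T + 1 := h5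
        _ ≤ Real.sqrt T * (2 * m + 3) := by nlinarith
    exact le_of_mul_le_mul_left h7 hs
  have h8 : Real.sqrt T ≤ ((m : ℝ) + 1) ^ 5 / 4 := by
    have h9 : (32 : ℝ) ≤ ((m : ℝ) + 1) ^ 5 := by
      calc (32 : ℝ) = 2 ^ 5 := by norm_num
        _ ≤ ((m : ℝ) + 1) ^ 5 := pow_le_pow_left₀ (by norm_num) (by linarith) 5
    have h10 : ((m : ℝ) + 1) * 16 ≤ ((m : ℝ) + 1) ^ 5 := by
      have : (16 : ℝ) ≤ ((m : ℝ) + 1) ^ 4 := by
        calc (16 : ℝ) = 2 ^ 4 := by norm_num
          _ ≤ ((m : ℝ) + 1) ^ 4 := pow_le_pow_left₀ (by norm_num) (by linarith) 4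
      calc ((m : ℝ) + 1) * 16 ≤ ((m : ℝ) + 1) * ((m : ℝ) + 1) ^ 4 :=
            mul_le_mul_of_nonneg_left this (by linarith)
        _ = _ := by ring
    linarith
  have h11 : (T : ℝ) ≤ (((m : ℝ) + 1) ^ 5) ^ 2 := by
    rw [← hss, sq]
    have : 0 ≤ ((m : ℝ) + 1) ^ 5 := by positivity
    exact mul_le_mul (by linarith) (by linarith) hs.le this
  calc Real.log T ≤ Real.log ((((m : ℝ) + 1) ^ 5) ^ 2) := Real.log_le_log (by linarith) h11
    _ = 10 * Real.log ((m : ℝ) + 1) := by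
        rw [← pow_mul, Real.log_pow]; norm_num

theorem P_pos (m : ℕ) : 0 < P m := by
  unfold P
  apply Finset.prod_pos
  intro i _
  have : (2 : ℚ) ≤ prm i := by exact_mod_cast prm_two_le i
  exact div_pos (by linarith) (by linarith)

theorem P_succ (m : ℕ) : P (m + 1) = P m * (((prm (m + 1) : ℚ) + 1) / ((prm (m + 1) : ℚ) - 1)) := by
  unfold P
  rw [Finset.prod_Icc_succ_top (by omega)]

theorem P_lt_succ (m : ℕ) : P m < P (m + 1) := by
  rw [P_succ]
  have h2 : (2 : ℚ) ≤ prm (m + 1) := by exact_mod_cast prm_two_le (m + 1)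
  have h3 : 1 < (((prm (m + 1) : ℚ) + 1) / ((prm (m + 1) : ℚ) - 1)) := by
    rw [lt_div_iff₀ (by linarith)]; linarith
  exact lt_mul_of_one_lt_right (P_pos m) h3

theorem P_strict : StrictMono P := strictMono_nat_of_lt_succ P_lt_succ

/-- growth of `P` beyond `m` -/
theorem P_growth (m j : ℕ) : ((P (m + j) : ℚ) : ℝ) ≤ ((P m : ℚ) : ℝ) *
    Real.exp (2 * j / ((prm m : ℝ) - 1)) := by
  induction j with
  | zero => simp
  | succ j ih =>
    rw [← add_assoc, P_succ]
    push_cast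
    have h2 : (2 : ℝ) ≤ prm m := by exact_mod_cast prm_two_le m
    have h3 : (prm m : ℝ) ≤ prm (m + j + 1) := by exact_mod_cast prm_le (by omega)
    have h4 : (((prm (m + j + 1) : ℝ) + 1) / ((prm (m + j + 1) : ℝ) - 1)) ≤
        Real.exp (2 / ((prm m : ℝ) - 1)) := by
      have e1 : (((prm (m + j + 1) : ℝ) + 1) / ((prm (m + j + 1) : ℝ) - 1)) =
          2 / ((prm (m + j + 1) : ℝ) - 1) + 1 := by
        have : (prm (m + j + 1) : ℝ) - 1 ≠ 0 := by linarith
        field_simp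
        ring
      rw [e1]
      refine le_trans ?_ (Real.add_one_le_exp _)
      have : 2 / ((prm (m + j + 1) : ℝ) - 1) ≤ 2 / ((prm m : ℝ) - 1) :=
        div_le_div_of_nonneg_left (by norm_num) (by linarith) (by linarith)
      linarith
    have h5 : (0 : ℝ) ≤ (((prm (m + j + 1) : ℝ) + 1) / ((prm (m + j + 1) : ℝ) - 1)) :=
      div_nonneg (by linarith) (by linarith)
    have h6 : (0 : ℝ) ≤ ((P m : ℚ) : ℝ) := by exact_mod_cast (P_pos m).le
    calc ((P (m + j) : ℚ) : ℝ) * (((prm (m + j + 1) : ℝ) + 1) / ((prm (m + j + 1) : ℝ) - 1))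
        ≤ (((P m : ℚ) : ℝ) * Real.exp (2 * j / ((prm m : ℝ) - 1))) *
          Real.exp (2 / ((prm m : ℝ) - 1)) :=
          mul_le_mul ih h4 h5 (mul_nonneg h6 (Real.exp_pos _).le)
      _ = _ := by
          rw [mul_assoc, ← Real.exp_add]
          congr 2
          ring

/-- two distinct rationals with denominators at most `D` -/
theorem rat_gap {a b : ℚ} {D : ℕ} (hab : a < b) (ha : a.den ≤ D) (hb : b.den ≤ D) :
    (1 : ℚ) / (D : ℚ) ^ 2 ≤ b - a := by
  have ha0 : (0 : ℚ) < a.den := by exact_mod_cast a.den_pos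
  have hb0 : (0 : ℚ) < b.den := by exact_mod_cast b.den_pos
  have h1 : b - a = ((b.num * a.den - a.num * b.den : ℤ) : ℚ) / (a.den * b.den) := by
    have e1 : a * a.den = a.num := Rat.mul_den_eq_num a
    have e2 : b * b.den = b.num := Rat.mul_den_eq_num b
    rw [eq_div_iff (by positivity)]
    push_cast
    rw [← e1, ← e2]
    ring
  have h2 : (0 : ℚ) < ((b.num * a.den - a.num * b.den : ℤ) : ℚ) := by
    have : 0 < b - a := by linarith
    rw [h1] at this
    exact (div_pos_iff_of_pos_right (by positivity)).1 this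
  have h3 : (1 : ℚ) ≤ ((b.num * a.den - a.num * b.den : ℤ) : ℚ) := by
    have : (0 : ℤ) < (b.num * a.den - a.num * b.den : ℤ) := by exact_mod_cast h2
    exact_mod_cast this
  rw [h1]
  have hD1 : (a.den : ℚ) ≤ D := by exact_mod_cast ha
  have hD2 : (b.den : ℚ) ≤ D := by exact_mod_cast hb
  have hDD : (a.den : ℚ) * b.den ≤ (D : ℚ) ^ 2 := by
    rw [sq]; exact mul_le_mul hD1 hD2 hb0.le (ha0.le.trans hD1)
  calc (1 : ℚ) / (D : ℚ) ^ 2 ≤ 1 / (a.den * b.den) :=
        div_le_div_of_nonneg_left (by norm_num) (by positivity) hDD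
    _ ≤ _ := div_le_div_of_nonneg_right h3 (by positivity)

theorem one_le_P (m : ℕ) : 1 ≤ P m := by
  have : P 0 = 1 := by simp [P]
  rw [← this]
  exact P_strict.monotone (Nat.zero_le m)

/-- the spacing principle, raw form -/
theorem spacing_raw (D m m' : ℕ) (hmm : m < m') (h1 : (P m).den ≤ D) (h2 : (P m').den ≤ D) :
    ((prm m : ℝ) - 1) ≤ 4 * (D : ℝ) ^ 2 * ((P m : ℚ) : ℝ) * ((m' : ℝ) - m) := by
  obtain ⟨j, rfl⟩ : ∃ j, m' = m + j := ⟨m' - m, by omega⟩
  have hj : 1 ≤ j := by omega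
  have hD : 1 ≤ D := le_trans (P m).den_pos h1
  have hD1 : (1 : ℝ) ≤ D := by exact_mod_cast hD
  have hP1 : (1 : ℝ) ≤ ((P m : ℚ) : ℝ) := by exact_mod_cast one_le_P m
  have hp2 : (2 : ℝ) ≤ prm m := by exact_mod_cast prm_two_le m
  have hjr : (1 : ℝ) ≤ j := by exact_mod_cast hj
  have hg := P_growth m j
  have hr : (1 : ℝ) / (D : ℝ) ^ 2 ≤ ((P (m + j) : ℚ) : ℝ) - ((P m : ℚ) : ℝ) := by
    have := rat_gap (P_strict (show m < m + j by omega)) h1 h2
    have h9 : (((1 : ℚ) / (D : ℚ) ^ 2 : ℚ) : ℝ) ≤ ((P (m + j) - P m : ℚ) : ℝ) :=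
      Rat.cast_le.2 this
    push_cast at h9
    exact h9
  have hDP : (1 : ℝ) ≤ (D : ℝ) ^ 2 * ((P m : ℚ) : ℝ) := by
    have : (1 : ℝ) ≤ (D : ℝ) ^ 2 := one_le_pow₀ hD1
    nlinarith
  push_cast
  have e0 : ((m : ℝ) + j - m) = j := by ring
  rw [e0]
  set t := 2 * (j : ℝ) / ((prm m : ℝ) - 1) with ht
  by_cases hbig : 1 ≤ t
  · rw [ht, le_div_iff₀ (by linarith)] at hbig
    nlinarith
  · push Not at hbig
    have ht0 : 0 ≤ t := by rw [ht]; exact div_nonneg (by linarith) (by linarith)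
    have hexp : Real.exp t ≤ 1 + 2 * t := by
      have hb := Real.exp_bound_div_one_sub_of_interval ht0 hbig
      have := Real.abs_exp_sub_one_le (x := t) (by rw [abs_of_nonneg ht0]; exact hbig.le)
      have h5 := le_abs_self (Real.exp t - 1)
      rw [abs_of_nonneg ht0] at this
      linarith
    have hP0 : (0 : ℝ) < ((P m : ℚ) : ℝ) := by linarith
    have h6 : (1 : ℝ) / (D : ℝ) ^ 2 ≤ ((P m : ℚ) : ℝ) * (2 * t) := by
      have : ((P m : ℚ) : ℝ) * Real.exp t ≤ ((P m : ℚ) : ℝ) * (1 + 2 * t) :=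
        mul_le_mul_of_nonneg_left hexp hP0.le
      linarith
    rw [div_le_iff₀ (by positivity), ht] at h6
    have h7 : ((prm m : ℝ) - 1) * 1 ≤ ((prm m : ℝ) - 1) *
        (((P m : ℚ) : ℝ) * (2 * (2 * (j : ℝ) / ((prm m : ℝ) - 1))) * (D : ℝ) ^ 2) :=
      mul_le_mul_of_nonneg_left h6 (by linarith)
    have h8 : ((prm m : ℝ) - 1) *
        (((P m : ℚ) : ℝ) * (2 * (2 * (j : ℝ) / ((prm m : ℝ) - 1))) * (D : ℝ) ^ 2) =
        4 * (D : ℝ) ^ 2 * ((P m : ℚ) : ℝ) * j := by
      have : (prm m : ℝ) - 1 ≠ 0 := by linarith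
      field_simp
      ring
    linarith

theorem count_raw (D M : ℕ) :
    ((((Icc 1 M).filter (fun m => (P m).den ≤ D)).card : ℕ) : ℝ) ≤ (D : ℝ) ^ 2 * ((P M : ℚ) : ℝ) := by
  set S := (Icc 1 M).filter (fun m => (P m).den ≤ D) with hS
  set N := ⌊P M * D⌋₊ with hN
  have hPM : 0 < P M := P_pos M
  have hcard : S.card ≤ (Icc 1 N ×ˢ Icc 1 D).card := by
    apply Finset.card_le_card_of_injOn (fun m => ((P m).num.toNat, (P m).den))
    · intro m hm
      rw [Finset.mem_coe, hS, mem_filter, mem_Icc] at hm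
      have hm1 : P m ≤ P M := P_strict.monotone hm.1.2
      have hd0 : (0 : ℚ) < (P m).den := by exact_mod_cast (P m).den_pos
      have hdD : ((P m).den : ℚ) ≤ D := by exact_mod_cast hm.2
      have hn0 : 0 < (P m).num := Rat.num_pos.2 (P_pos m)
      simp only [Finset.coe_product, Set.mem_prod, coe_Icc, Set.mem_Icc]
      refine ⟨⟨by omega, ?_⟩, (P m).den_pos, hm.2⟩
      rw [hN]
      apply Nat.le_floor
      have e1 : (((P m).num.toNat : ℕ) : ℚ) = ((P m).num : ℚ) := by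
        have : (((P m).num.toNat : ℕ) : ℤ) = (P m).num := Int.toNat_of_nonneg hn0.le
        exact_mod_cast this
      rw [e1, ← Rat.mul_den_eq_num]
      exact mul_le_mul hm1 hdD hd0.le hPM.le
    · intro a ha b hb hab
      simp only [Prod.mk.injEq] at hab
      have ha0 : 0 < (P a).num := Rat.num_pos.2 (P_pos a)
      have hb0 : 0 < (P b).num := Rat.num_pos.2 (P_pos b)
      have h1 : (P a).num = (P b).num := by omega
      have : P a = P b := Rat.ext h1 hab.2
      exact P_strict.injective this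
  have h2 : (N : ℝ) ≤ ((P M : ℚ) : ℝ) * D := by
    have h3 : (N : ℚ) ≤ P M * D := Nat.floor_le (by positivity)
    have h4 : (((N : ℚ)) : ℝ) ≤ ((P M * D : ℚ) : ℝ) := Rat.cast_le.2 h3
    push_cast at h4
    exact h4
  have h5 : (S.card : ℝ) ≤ (N : ℝ) * D := by
    rw [card_product] at hcard
    simp only [Nat.card_Icc, Nat.add_sub_cancel] at hcard
    exact_mod_cast hcard
  calc (S.card : ℝ) ≤ (N : ℝ) * D := h5
    _ ≤ (((P M : ℚ) : ℝ) * D) * D := mul_le_mul_of_nonneg_right h2 (by positivity)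
    _ = _ := by ring

end MPf55cd4
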