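import Pool.Agent.Lib_MP_f55cd4.Small

open Finset

namespace MPf55cd4

/-- `q` and `2q+1` or `q` and `2q-1` are primes which cover `x` -/
def Pair (q x : ℕ) : Prop :=
  q.Prime ∧ ((2 * q + 1).Prime ∧ 2 * q + 1 ≤ x ∧ x + 1 < 4 * q ∨
    (2 * q - 1).Prime ∧ 2 * q - 1 ≤ x ∧ x < 4 * q + 1)

theorem coreA {q x : ℕ} (hq : q.Prime) (h3 : 3 < q) (h2 : (2 * q + 1).Prime)
    (hx1 : 2 * q + 1 ≤ x) (hx2 : x + 1 < 4 * q) : q ∣ ph x ∧ ¬ q ∣ sg x := by
  have hqodd : q % 2 = 1 := hq.eq_two_or_odd.resolve_left (by omega)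
  have hq3 : q % 3 = 2 := by
    rcases prime_mod_three hq h3 with h1 | h1
    · exfalso; exact not_prime_of_three (n := 2 * q + 1) (by omega) (by omega) h2
    · exact h1
  refine ⟨?_, ?_⟩
  · have : (2 * q + 1 - 1) ∣ ph x := by
      unfold ph
      apply Finset.dvd_prod_of_mem (fun p => p - 1) (a := 2 * q + 1)
      simp [mem_filter, h2]; omega
    exact dvd_trans ⟨2, by omega⟩ this
  · unfold sg
    rw [Prime.dvd_finset_prod_iff hq.prime]
    rintro ⟨p, hp, hqp⟩
    simp only [mem_filter, mem_range] at hp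
    obtain ⟨c, hc⟩ := hqp
    have hp2 := hp.2.two_le
    have hc4 : c < 4 := by
      by_contra hcon
      push Not at hcon
      have : q * 4 ≤ q * c := Nat.mul_le_mul_left q hcon
      omega
    have hpe : p = q * c - 1 := by omega
    interval_cases c
    · omega
    · exact not_prime_of_even (n := p) (by omega) (by omega) hp.2
    · exact not_prime_of_three (n := p) (by omega) (by omega) hp.2
    · exact not_prime_of_even (n := p) (by omega) (by omega) hp.2

theorem coreB {q x : ℕ} (hq : q.Prime) (h3 : 3 < q) (h2 : (2 * q - 1).Prime)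
    (hx1 : 2 * q - 1 ≤ x) (hx2 : x < 4 * q + 1) : q ∣ sg x ∧ ¬ q ∣ ph x := by
  have hqodd : q % 2 = 1 := hq.eq_two_or_odd.resolve_left (by omega)
  have hq3 : q % 3 = 1 := by
    rcases prime_mod_three hq h3 with h1 | h1
    · exact h1
    · exfalso; exact not_prime_of_three (n := 2 * q - 1) (by omega) (by omega) h2
  refine ⟨?_, ?_⟩
  · have : (2 * q - 1 + 1) ∣ sg x := by
      unfold sg
      apply Finset.dvd_prod_of_mem (fun p => p + 1) (a := 2 * q - 1)
      simp [mem_filter, h2]; omega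
    exact dvd_trans ⟨2, by omega⟩ this
  · unfold ph
    rw [Prime.dvd_finset_prod_iff hq.prime]
    rintro ⟨p, hp, hqp⟩
    simp only [mem_filter, mem_range] at hp
    obtain ⟨c, hc⟩ := hqp
    have hp2 := hp.2.two_le
    have hc4 : c < 4 := by
      by_contra hcon
      push Not at hcon
      have : q * 4 ≤ q * c := Nat.mul_le_mul_left q hcon
      omega
    have hpe : p = q * c + 1 := by omega
    interval_cases c
    · omega
    · exact not_prime_of_even (n := p) (by omega) (by omega) hp.2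
    · exact not_prime_of_three (n := p) (by omega) (by omega) hp.2
    · exact not_prime_of_even (n := p) (by omega) (by omega) hp.2

theorem sg_pos (x : ℕ) : 0 < sg x := by
  unfold sg
  exact Finset.prod_pos (fun p _ => by omega)

/-- the cross relation between the reduced fraction and `sg`, `ph` -/
theorem cross (m : ℕ) (hm : 1 ≤ m) :
    (P m).num * (ph (prm m) : ℤ) = (sg (prm m) : ℤ) * ((P m).den : ℤ) := by
  have h0 : (ph (prm m) : ℚ) ≠ 0 := by exact_mod_cast (ph_pos _).ne'
  have h1 : ((P m).den : ℚ) ≠ 0 := by exact_mod_cast (P m).den_nz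
  have h2 := P_eq m hm
  have h3 : ((P m).num : ℚ) / ((P m).den : ℚ) = (sg (prm m) : ℚ) / (ph (prm m) : ℚ) := by
    rw [Rat.num_div_den]; exact h2
  rw [div_eq_div_iff h1 h0] at h3
  exact_mod_cast h3

theorem dvd_den {q m : ℕ} (hm : 1 ≤ m) (hq : q.Prime) (h : q ∣ ph (prm m) ∧ ¬ q ∣ sg (prm m)) :
    q ∣ (P m).den := by
  have hc := cross m hm
  have h1 : (q : ℤ) ∣ (sg (prm m) : ℤ) * ((P m).den : ℤ) := by
    rw [← hc]
    exact Dvd.dvd.mul_left (by exact_mod_cast h.1) _
  have h2 : q ∣ sg (prm m) * (P m).den := by exact_mod_cast h1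
  exact ((Nat.Prime.dvd_mul hq).1 h2).resolve_left h.2

theorem dvd_num {q m : ℕ} (hm : 1 ≤ m) (hq : q.Prime) (h : q ∣ sg (prm m) ∧ ¬ q ∣ ph (prm m)) :
    (q : ℤ) ∣ (P m).num := by
  have hc := cross m hm
  have h1 : (q : ℤ) ∣ (P m).num * (ph (prm m) : ℤ) := by
    rw [hc]
    exact Dvd.dvd.mul_right (by exact_mod_cast h.1) _
  have hqp : Prime (q : ℤ) := Nat.prime_iff_prime_int.1 hq
  rcases hqp.dvd_or_dvd h1 with h2 | h2
  · exact h2
  · exact absurd (by exact_mod_cast h2) h.2

theorem den_le_num (m : ℕ) (hm : 1 ≤ m) : ((P m).den : ℤ) ≤ (P m).num := by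
  have hc := cross m hm
  have h0 : (0 : ℤ) < (ph (prm m) : ℤ) := by exact_mod_cast ph_pos _
  have h1 : (ph (prm m) : ℤ) ≤ (sg (prm m) : ℤ) := by
    have : ph (prm m) ≤ sg (prm m) := by
      unfold ph sg
      exact Finset.prod_le_prod' (fun p _ => by omega)
    exact_mod_cast this
  have h2 : ((P m).den : ℤ) * (ph (prm m) : ℤ) ≤ (P m).num * (ph (prm m) : ℤ) := by
    rw [hc, mul_comm]
    exact mul_le_mul_of_nonneg_right h1 (by positivity)
  exact le_of_mul_le_mul_right h2 h0

theorem num_pos (m : ℕ) (hm : 1 ≤ m) : 0 < (P m).num := by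
  have := den_le_num m hm
  have h := (P m).den_pos
  have : (0 : ℤ) < (P m).den := by exact_mod_cast h
  omega

/-- a pair forces a large numerator -/
theorem num_ge {q m : ℕ} (hm : 1 ≤ m) (h3 : 3 < q) (h : Pair q (prm m)) :
    (q : ℤ) ≤ (P m).num := by
  obtain ⟨hq, h | h⟩ := h
  · obtain ⟨h1, h2, h4⟩ := h
    have h5 := dvd_den hm hq (coreA hq h3 h1 h2 h4)
    have h6 := Nat.le_of_dvd (P m).den_pos h5
    have h7 := den_le_num m hm
    have : (q : ℤ) ≤ ((P m).den : ℤ) := by exact_mod_cast h6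
    omega
  · obtain ⟨h1, h2, h4⟩ := h
    have h5 := dvd_num hm hq (coreB hq h3 h1 h2 h4)
    exact Int.le_of_dvd (num_pos m hm) h5

theorem pair_big {q x : ℕ} (h : Pair q x) (hx : 47 ≤ x) : 3 < q := by
  obtain ⟨_, h | h⟩ := h <;> omega

/-- a pair excludes integrality -/
theorem not_int_of_pair {q m : ℕ} (hm : 1 ≤ m) (hx : 6000 ≤ prm m) (h : Pair q (prm m)) :
    ¬ ∃ z : ℤ, P m = z := by
  intro hz
  have hd := dvd_of_int hm hz
  have h3 : 3 < q := pair_big h (by omega)
  obtain ⟨hq, h | h⟩ := h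
  · exact caseA hq h3 h.1 h.2.1 h.2.2 hd
  · exact caseB' hq h.1 hx h.2.1 h.2.2 hd

theorem smallpair (x : ℕ) (h1 : 47 ≤ x) (h2 : x < 3880243) : ∃ q, Pair q x := by
  have key : ∀ q : ℕ, q.Prime → (2 * q + 1).Prime → 2 * q + 1 ≤ x → x + 1 < 4 * q →
      ∃ q, Pair q x := fun q a b c d => ⟨q, a, Or.inl ⟨b, c, d⟩⟩
  by_cases c1 : x + 1 < 4 * 23
  · exact key 23 (by norm_num) (by norm_num) (by omega) c1
  by_cases c2 : x + 1 < 4 * 41
  · exact key 41 (by norm_num) (by norm_num) (by omega) c2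
  by_cases c3 : x + 1 < 4 * 53
  · exact key 53 (by norm_num) (by norm_num) (by omega) c3
  by_cases c4 : x + 1 < 4 * 89
  · exact key 89 (by norm_num) (by norm_num) (by omega) c4
  by_cases c5 : x + 1 < 4 * 173
  · exact key 173 (by norm_num) (by norm_num) (by omega) c5
  by_cases c6 : x + 1 < 4 * 293
  · exact key 293 (by norm_num) (by norm_num) (by omega) c6
  by_cases c7 : x + 1 < 4 * 509
  · exact key 509 (by norm_num) (by norm_num) (by omega) c7
  by_cases c8 : x + 1 < 4 * 1013
  · exact key 1013 (by norm_num) (by norm_num) (by omega) c8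
  by_cases c9 : x + 1 < 4 * 2003
  · exact key 2003 (by norm_num) (by norm_num) (by omega) c9
  by_cases c10 : x + 1 < 4 * 3911
  · exact key 3911 (by norm_num) (by norm_num) (by omega) c10
  by_cases c11 : x + 1 < 4 * 7691
  · exact key 7691 (by norm_num) (by norm_num) (by omega) c11
  by_cases c12 : x + 1 < 4 * 15269
  · exact key 15269 (by norm_num) (by norm_num) (by omega) c12
  by_cases c13 : x + 1 < 4 * 30449
  · exact key 30449 (by norm_num) (by norm_num) (by omega) c13
  by_cases c14 : x + 1 < 4 * 60779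
  · exact key 60779 (by norm_num) (by norm_num) (by omega) c14
  by_cases c15 : x + 1 < 4 * 121403
  · exact key 121403 (by norm_num) (by norm_num) (by omega) c15
  by_cases c16 : x + 1 < 4 * 242681
  · exact key 242681 (by norm_num) (by norm_num) (by omega) c16
  by_cases c17 : x + 1 < 4 * 485123
  · exact key 485123 (by norm_num) (by norm_num) (by omega) c17
  by_cases c18 : x + 1 < 4 * 970061
  · exact key 970061 (by norm_num) (by norm_num) (by omega) c18
  omega

end MPf55cd4
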