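import Mathlib

namespace MPf55cd4

/-- repeated squaring modulo `n` -/
noncomputable def sqB (n k x : ℕ) : ℕ := Nat.rec x (fun _ r => Nat.mod (Nat.pow r 2) n) k

/-- modular power by binary expansion of the exponent -/
noncomputable def pmB (n a f e : ℕ) : ℕ :=
  Nat.rec (motive := fun _ => ℕ → ℕ) (fun _ => 1)
    (fun _ r e => Nat.mod (Nat.mul (Nat.pow (r (Nat.div e 2)) 2) (Nat.pow a (Nat.mod e 2))) n) f e

/-- the Proth test for `h * 2 ^ k + 1` with base `a` -/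
noncomputable def pt (h k a : ℕ) : Bool :=
  Nat.ble 1 h && (Nat.ble 1 k && (Nat.blt h (Nat.pow 2 k) && (Nat.blt h 1073741824 &&
    Nat.beq (sqB (Nat.mul h (Nat.pow 2 k) + 1) (Nat.sub k 1)
      (pmB (Nat.mul h (Nat.pow 2 k) + 1) a 30 h)) (Nat.mul h (Nat.pow 2 k)))))

theorem sqB_cast (n k x : ℕ) : ((sqB n k x : ℕ) : ZMod n) = (x : ZMod n) ^ (2 ^ k) := by
  induction k with
  | zero => simp [sqB]
  | succ k ih =>
    have : sqB n (k + 1) x = (sqB n k x) ^ 2 % n := rfl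
    rw [this, ZMod.natCast_mod, Nat.cast_pow, ih, ← pow_mul, pow_succ]

theorem pmB_cast (n a f : ℕ) : ∀ e, e < 2 ^ f →
    ((pmB n a f e : ℕ) : ZMod n) = (a : ZMod n) ^ e := by
  induction f with
  | zero =>
    intro e he
    have : e = 0 := by simpa using he
    subst this
    simp [pmB]
  | succ f ih =>
    intro e he
    have h1 : pmB n a (f + 1) e = (pmB n a f (e / 2)) ^ 2 * a ^ (e % 2) % n := rfl
    have h2 : e / 2 < 2 ^ f := by
      rw [pow_succ] at he; omega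
    rw [h1, ZMod.natCast_mod, Nat.cast_mul, Nat.cast_pow, Nat.cast_pow, ih _ h2, ← pow_mul,
      ← pow_add]
    congr 1
    omega

theorem proth {h k a : ℕ} (hh0 : 1 ≤ h) (hk : 1 ≤ k) (hh : h < 2 ^ k)
    (ht : (a : ZMod (h * 2 ^ k + 1)) ^ (h * 2 ^ (k - 1)) = -1) : (h * 2 ^ k + 1).Prime := by
  set n := h * 2 ^ k + 1 with hn
  have h2k : 0 < 2 ^ k := by positivity
  have hn1 : n ≠ 1 := by
    have : 0 < h * 2 ^ k := by positivity
    omega
  have hp := Nat.minFac_prime hn1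
  set p := n.minFac with hpdef
  have : Fact p.Prime := ⟨hp⟩
  have hpn : p ∣ n := Nat.minFac_dvd n
  have hp2 : p ≠ 2 := by
    intro h2
    rw [h2] at hpn
    have : n % 2 = 1 := by
      rw [hn]
      have : 2 ^ k = 2 * 2 ^ (k - 1) := by rw [← pow_succ']; congr 1; omega
      rw [this]
      have e : h * (2 * 2 ^ (k - 1)) + 1 = 2 * (h * 2 ^ (k - 1)) + 1 := by ring
      rw [e]; omega
    omega
  have hmap : (a : ZMod p) ^ (h * 2 ^ (k - 1)) = -1 := by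
    have := congrArg (ZMod.castHom hpn (ZMod p)) ht
    rw [map_pow, map_natCast, map_neg, map_one] at this
    exact this
  have hne : (-1 : ZMod p) ≠ 1 := by
    have : Fact (2 < p) := ⟨lt_of_le_of_ne hp.two_le (Ne.symm hp2)⟩
    exact ZMod.neg_one_ne_one
  have hord : orderOf ((a : ZMod p) ^ h) = 2 ^ (k - 1 + 1) := by
    apply orderOf_eq_prime_pow
    · rw [← pow_mul, hmap]; exact hne
    · rw [← pow_mul, pow_succ, ← mul_assoc, pow_mul, hmap]; simp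
  have hk1 : k - 1 + 1 = k := by omega
  rw [hk1] at hord
  have hne0 : (a : ZMod p) ^ h ≠ 0 := by
    intro h0
    rw [h0] at hord
    have h1 : ((0 : ZMod p)) ^ (2 ^ k) = 1 := by rw [← hord]; exact pow_orderOf_eq_one _
    rw [zero_pow h2k.ne'] at h1
    exact zero_ne_one h1
  have hdvd : 2 ^ k ∣ p - 1 := by
    rw [← hord]
    exact ZMod.orderOf_dvd_card_sub_one hne0
  have hp1 := hp.one_lt
  have hle : 2 ^ k ≤ p - 1 := Nat.le_of_dvd (by omega) hdvd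
  by_contra hnp
  have hsq := Nat.minFac_sq_le_self (n := n) (by omega) hnp
  rw [← hpdef] at hsq
  have h3 : (2 ^ k + 1) ^ 2 ≤ p ^ 2 := Nat.pow_le_pow_left (by omega) 2
  have h4 : n ≤ (2 ^ k - 1) * 2 ^ k + 1 := by
    rw [hn]
    have : h * 2 ^ k ≤ (2 ^ k - 1) * 2 ^ k := Nat.mul_le_mul_right _ (by omega)
    omega
  have h5 : (2 ^ k - 1) * 2 ^ k + 1 < (2 ^ k + 1) ^ 2 := by
    obtain ⟨t, ht⟩ : ∃ t, 2 ^ k = t + 1 := ⟨2 ^ k - 1, by omega⟩
    rw [ht]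
    simp only [Nat.add_sub_cancel]
    nlinarith
  omega

theorem pt_prime {h k a : ℕ} (ht : pt h k a = true) : (h * 2 ^ k + 1).Prime := by
  unfold pt at ht
  simp only [Bool.and_eq_true] at ht
  obtain ⟨h1, h2, h3, h4, h5⟩ := ht
  have h1' : 1 ≤ h := Nat.le_of_ble_eq_true h1
  have h2' : 1 ≤ k := Nat.le_of_ble_eq_true h2
  have h3' : h < 2 ^ k := by
    have := Nat.le_of_ble_eq_true h3
    exact this
  have h4' : h < 2 ^ 30 := by
    have := Nat.le_of_ble_eq_true h4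
    norm_num
    exact this
  have h5' := Nat.eq_of_beq_eq_true h5
  apply proth h1' h2' h3' (a := a)
  have h6 : (((sqB (h * 2 ^ k + 1) (k - 1) (pmB (h * 2 ^ k + 1) a 30 h) : ℕ)) :
      ZMod (h * 2 ^ k + 1)) = ((h * 2 ^ k : ℕ) : ZMod (h * 2 ^ k + 1)) := congrArg _ h5'
  rw [sqB_cast, pmB_cast _ _ _ _ h4', ← pow_mul] at h6
  rw [h6]
  have h7 : ((h * 2 ^ k + 1 : ℕ) : ZMod (h * 2 ^ k + 1)) = 0 := ZMod.natCast_self _
  rw [Nat.cast_add, Nat.cast_one] at h7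
  exact eq_neg_of_add_eq_zero_left h7

/-- the chain check: from `T` to `E` -/
noncomputable def chk (T : ℕ) (l : List (ℕ × ℕ × ℕ × ℕ)) (E : ℕ) : Bool :=
  List.rec (motive := fun _ => ℕ → Bool) (fun T => Nat.ble E T)
    (fun c _ r T => Nat.ble (Nat.mul c.1 (Nat.pow 2 (c.2.1 + 1)) + 1) T &&
      (pt c.1 c.2.1 c.2.2.1 && (pt c.1 (c.2.1 + 1) c.2.2.2 &&
        r (Nat.mul c.1 (Nat.pow 2 (c.2.1 + 2)) + 5)))) l T

theorem chk_cover (l : List (ℕ × ℕ × ℕ × ℕ)) (E : ℕ) : ∀ T, chk T l E = true →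
    ∀ x, T ≤ x → x < E → ∃ q, q.Prime ∧ (2 * q - 1).Prime ∧ 2 * q - 1 ≤ x ∧ x < 4 * q + 1 := by
  induction l with
  | nil =>
    intro T h x h1 h2
    have : E ≤ T := Nat.le_of_ble_eq_true h
    omega
  | cons c l ih =>
    intro T h x h1 h2
    have h' : (Nat.ble (Nat.mul c.1 (Nat.pow 2 (c.2.1 + 1)) + 1) T &&
      (pt c.1 c.2.1 c.2.2.1 && (pt c.1 (c.2.1 + 1) c.2.2.2 &&
        chk (Nat.mul c.1 (Nat.pow 2 (c.2.1 + 2)) + 5) l E))) = true := h
    simp only [Bool.and_eq_true] at h'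
    obtain ⟨a1, a2, a3, a4⟩ := h'
    have a1' : c.1 * 2 ^ (c.2.1 + 1) + 1 ≤ T := Nat.le_of_ble_eq_true a1
    have e1 : c.1 * 2 ^ (c.2.1 + 1) = 2 * (c.1 * 2 ^ c.2.1) := by rw [pow_succ]; ring
    have e2 : c.1 * 2 ^ (c.2.1 + 2) = 4 * (c.1 * 2 ^ c.2.1) := by rw [pow_succ, pow_succ]; ring
    by_cases hx : x < 4 * (c.1 * 2 ^ c.2.1 + 1) + 1
    · refine ⟨c.1 * 2 ^ c.2.1 + 1, pt_prime a2, ?_, by omega, hx⟩
      have := pt_prime a3
      rw [e1] at this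
      have e3 : 2 * (c.1 * 2 ^ c.2.1 + 1) - 1 = 2 * (c.1 * 2 ^ c.2.1) + 1 := by omega
      rw [e3]; exact this
    · apply ih _ a4 x _ h2
      have e4 : Nat.mul c.1 (Nat.pow 2 (c.2.1 + 2)) + 5 = c.1 * 2 ^ (c.2.1 + 2) + 5 := rfl
      rw [e4, e2]; omega

end MPf55cd4
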