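import Pool.Agent.Lib_MP_f55cd4.Bound

open Finset

namespace MPf55cd4

theorem caseA' (q : ℕ) (hq : q.Prime) (h3 : 3 < q) (h2 : (2 * q + 1).Prime) (x : ℕ)
    (hx1 : 2 * q + 1 ≤ x) (hx2 : x + 1 < 4 * q) : ¬ ph x ∣ sg x := caseA hq h3 h2 hx1 hx2

theorem small43 (x : ℕ) (h1 : 43 ≤ x) (h2 : x < 47) : ¬ ph x ∣ sg x := by
  interval_cases x <;> decide +kernel

theorem small_range (x : ℕ) (h1 : 23 ≤ x) (h2 : x < 3880243) : ¬ ph x ∣ sg x := by
  by_cases c0 : x + 1 < 4 * 11
  · exact caseA' 11 (by norm_num) (by norm_num) (by norm_num) x (by omega) c0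
  by_cases c1 : x + 1 < 4 * 23
  · by_cases d : x < 47
    · exact small43 x (by omega) d
    · exact caseA' 23 (by norm_num) (by norm_num) (by norm_num) x (by omega) c1
  by_cases c2 : x + 1 < 4 * 41
  · exact caseA' 41 (by norm_num) (by norm_num) (by norm_num) x (by omega) c2
  by_cases c3 : x + 1 < 4 * 53
  · exact caseA' 53 (by norm_num) (by norm_num) (by norm_num) x (by omega) c3
  by_cases c4 : x + 1 < 4 * 89
  · exact caseA' 89 (by norm_num) (by norm_num) (by norm_num) x (by omega) c4
  by_cases c5 : x + 1 < 4 * 173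
  · exact caseA' 173 (by norm_num) (by norm_num) (by norm_num) x (by omega) c5
  by_cases c6 : x + 1 < 4 * 293
  · exact caseA' 293 (by norm_num) (by norm_num) (by norm_num) x (by omega) c6
  by_cases c7 : x + 1 < 4 * 509
  · exact caseA' 509 (by norm_num) (by norm_num) (by norm_num) x (by omega) c7
  by_cases c8 : x + 1 < 4 * 1013
  · exact caseA' 1013 (by norm_num) (by norm_num) (by norm_num) x (by omega) c8
  by_cases c9 : x + 1 < 4 * 2003
  · exact caseA' 2003 (by norm_num) (by norm_num) (by norm_num) x (by omega) c9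
  by_cases c10 : x + 1 < 4 * 3911
  · exact caseA' 3911 (by norm_num) (by norm_num) (by norm_num) x (by omega) c10
  by_cases c11 : x + 1 < 4 * 7691
  · exact caseA' 7691 (by norm_num) (by norm_num) (by norm_num) x (by omega) c11
  by_cases c12 : x + 1 < 4 * 15269
  · exact caseA' 15269 (by norm_num) (by norm_num) (by norm_num) x (by omega) c12
  by_cases c13 : x + 1 < 4 * 30449
  · exact caseA' 30449 (by norm_num) (by norm_num) (by norm_num) x (by omega) c13
  by_cases c14 : x + 1 < 4 * 60779
  · exact caseA' 60779 (by norm_num) (by norm_num) (by norm_num) x (by omega) c14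
  by_cases c15 : x + 1 < 4 * 121403
  · exact caseA' 121403 (by norm_num) (by norm_num) (by norm_num) x (by omega) c15
  by_cases c16 : x + 1 < 4 * 242681
  · exact caseA' 242681 (by norm_num) (by norm_num) (by norm_num) x (by omega) c16
  by_cases c17 : x + 1 < 4 * 485123
  · exact caseA' 485123 (by norm_num) (by norm_num) (by norm_num) x (by omega) c17
  by_cases c18 : x + 1 < 4 * 970061
  · exact caseA' 970061 (by norm_num) (by norm_num) (by norm_num) x (by omega) c18
  omega

end MPf55cd4
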